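import Pool.Agent.N463.MI.Stm

/-! # MI/E01: real parts in the sector (by helper46) -/

set_option autoImplicit false

namespace Pool.Agent.N46.MI.E01

open Real

theorem cs_nonneg (w : ℝ) (hw : 0 ≤ w) : cos w + sin w ≤ exp w := by
  have h1 := add_one_le_exp w
  have h2 := cos_le_one w
  have h3 := sin_le hw
  linarith

theorem cs_neg (v : ℝ) (h0 : 0 ≤ v) (h1 : v ≤ 1) : cos v - sin v ≤ exp (-v) := by
  rcases eq_or_lt_of_le h0 with rfl | hv
  · simp
  have h2 := add_one_le_exp (-v)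
  have h3 : v - v ^ 3 / 4 < sin v := by
    have h := sin_gt_sub_cube hv
    have : 0 < v ^ 3 := by positivity
    linarith
  have h4 : v / 2 - (v / 2) ^ 3 / 4 < sin (v / 2) := by
    have h := sin_gt_sub_cube (by linarith : 0 < v / 2)
    have : 0 < (v / 2) ^ 3 := by positivity
    linarith
  have h5 : cos v = 1 - 2 * sin (v / 2) ^ 2 := by
    have h6 := cos_two_mul (v / 2)
    have h7 := sin_sq_add_cos_sq (v / 2)
    have h8 : 2 * (v / 2) = v := by ring
    rw [h8] at h6
    linarith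
  have h6 : 0 ≤ v / 2 - (v / 2) ^ 3 / 4 := by
    have : v ^ 2 ≤ 1 := by nlinarith
    have : v ^ 3 ≤ v := by nlinarith
    nlinarith
  have h7 : (v / 2 - (v / 2) ^ 3 / 4) ^ 2 ≤ sin (v / 2) ^ 2 := by
    apply pow_le_pow_left₀ h6 h4.le
  have h8 : v ^ 3 / 4 ≤ 2 * (v / 2 - (v / 2) ^ 3 / 4) ^ 2 := by
    have h9 : 2 * (v / 2 - (v / 2) ^ 3 / 4) ^ 2 = v ^ 2 / 2 * (1 - v ^ 2 / 16) ^ 2 := by ring
    rw [h9]
    have h10 : v / 2 ≤ (1 - v ^ 2 / 16) ^ 2 := by nlinarith [sq_nonneg (v ^ 2), mul_pos hv hv]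
    have h11 : 0 ≤ v ^ 2 / 2 := by positivity
    nlinarith [mul_le_mul_of_nonneg_left h10 h11]
  rw [h5]
  linarith

theorem cs (w : ℝ) (hw : -1 ≤ w) : cos w + sin w ≤ exp w := by
  rcases le_or_gt 0 w with h | h
  · exact cs_nonneg w h
  · have h1 := cs_neg (-w) (by linarith) (by linarith)
    rw [cos_neg, sin_neg, neg_neg] at h1
    linarith

theorem num : √2 / 2 * exp (-(3 * π / 4)) ≤ 7 / 100 := by
  have h1 : √2 ≤ 1.4143 := by
    rw [sqrt_le_left (by norm_num)]
    norm_num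
  have h2 : exp (-(3 * π / 4)) ≤ exp (-2.356) := by
    apply exp_le_exp.2
    have := pi_gt_d4
    linarith
  have h3 : (10.4 : ℝ) ≤ exp 2.356 := by
    have h4 : exp (2.356 : ℝ) = exp 1 * exp 1 * exp 0.356 := by
      rw [← exp_add, ← exp_add]
      norm_num
    have h5 := exp_one_gt_d9
    have h6 : (1.419 : ℝ) ≤ exp 0.356 := by
      have := quadratic_le_exp_of_nonneg (x := 0.356) (by norm_num)
      norm_num at this ⊢
      linarith
    rw [h4]
    have h7 : (7.38 : ℝ) ≤ exp 1 * exp 1 := by nlinarith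
    nlinarith
  have h4 : exp (-2.356 : ℝ) ≤ 1 / 10.4 := by
    rw [exp_neg, ← one_div]
    exact one_div_le_one_div_of_le (by norm_num) h3
  have h5 : 0 < exp (-(3 * π / 4)) := exp_pos _
  have h6 : exp (-(3 * π / 4)) ≤ 1 / 10.4 := h2.trans h4
  nlinarith [sqrt_nonneg (2 : ℝ)]

theorem key (z : ℝ) (hz : π / 2 ≤ z) : -cos z * exp (-z) ≤ 7 / 100 := by
  obtain ⟨w, hw⟩ : ∃ w, w = z - 3 * π / 4 := ⟨_, rfl⟩
  have h1 : -cos z = √2 / 2 * (cos w + sin w) := by
    have h2 : z = w + π / 2 + π / 4 := by rw [hw]; ring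
    rw [h2, cos_add, cos_add_pi_div_two, sin_add_pi_div_two, cos_pi_div_four, sin_pi_div_four]
    ring
  have h3 : cos w + sin w ≤ exp w := cs w (by
    have := pi_le_four
    rw [hw]
    linarith)
  have h4 : exp w * exp (-z) = exp (-(3 * π / 4)) := by
    rw [← exp_add, hw]
    congr 1
    ring
  calc -cos z * exp (-z) = √2 / 2 * ((cos w + sin w) * exp (-z)) := by rw [h1]; ring
    _ ≤ √2 / 2 * (exp w * exp (-z)) := by
        apply mul_le_mul_of_nonneg_left _ (by positivity)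
        exact mul_le_mul_of_nonneg_right h3 (exp_pos _).le
    _ ≤ 7 / 100 := by rw [h4]; exact num

theorem t_E01 : Pool.Agent.N463.MI.E01 := by
  intro b s y hb0 hb3 hs hy
  have he := exp_pos (-s)
  rcases le_or_gt 0 (cos y) with h | h
  · have : 0 ≤ b * exp (-s) * cos y := by positivity
    linarith
  · have hz : π / 2 ≤ |y| := by
      by_contra hcon
      push Not at hcon
      have := cos_pos_of_mem_Ioo (x := y) ⟨by linarith [neg_abs_le y], by linarith [le_abs_self y]⟩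
      linarith
    have h1 := key |y| hz
    rw [cos_abs] at h1
    have h2 : exp (-s) ≤ exp (-|y|) := exp_le_exp.2 (by linarith)
    have h3 : b * exp (-s) * (-cos y) ≤ 3 * (-cos y * exp (-|y|)) := by
      have h4 : b * exp (-s) ≤ 3 * exp (-|y|) :=
        mul_le_mul hb3 h2 he.le (by norm_num)
      nlinarith [mul_le_mul_of_nonneg_right h4 (by linarith : 0 ≤ -cos y)]
    nlinarith

end Pool.Agent.N46.MI.E01
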